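import Pool.Agent.Y367.CG.Low

/-!
# Integrals of the functions `F` for bounded sequences
-/

open MeasureTheory Finset Set Filter Topology

namespace Pool.Agent.Y367.CG

open Pool.Agent.Y171.CG

/-- `g` is bounded by `G` up to `n`. -/
def Bd (g : ℕ → ℝ) (G : ℝ) : Prop := 0 ≤ G ∧ ∀ r, 2 ≤ r → g r ≤ G

/-- `g` is bounded up to every index. -/
def LBd (g : ℕ → ℝ) : Prop := ∀ n : ℕ, ∃ G : ℝ, 0 ≤ G ∧ ∀ r, 2 ≤ r → r ≤ n → g r ≤ G

theorem lbd_good {g : ℕ → ℝ} (hg : GoodSeq g) : LBd g := fun n =>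
  ⟨g (n + 2), (hg.1 _ (by omega)).le, fun r hr hr' => hg.2.1 r _ hr (by omega)⟩

theorem lbd_tr {g : ℕ → ℝ} (hg : GoodSeq g) (R : ℕ) : LBd (tr g R) := by
  intro n
  obtain ⟨G, hG, h⟩ := lbd_good hg n
  refine ⟨G, hG, fun r hr hr' => ?_⟩
  unfold tr
  split_ifs
  · exact h r hr hr'
  · exact hG

theorem intB (hM : S_MEF) (hT : S_TAI) {g : ℕ → ℝ} (hg : LBd g) (n : ℕ) :
    IntegrableOn (fun z => 1 - F g n z) (Ioi 0) := by
  obtain ⟨G, hG, hgG⟩ := hg n
  have hmeas : Measurable (fun z : ℝ => 1 - F g n z) :=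
    measurable_const.sub (hM g n)
  rw [← Ioc_union_Ioi_eq_Ioi (zero_le_one' ℝ)]
  refine IntegrableOn.union ?_ ?_
  · refine Measure.integrableOn_of_bounded (M := 1) (by simp) hmeas.aestronglyMeasurable ?_
    refine Filter.Eventually.of_forall fun z => ?_
    rw [Real.norm_eq_abs, abs_le]
    have h1 := F_nonneg g n z
    have h2 := F_le_one g n z
    constructor <;> linarith
  · have hi := (integrableOn_Ioi_rpow_of_lt (a := -2) (by norm_num) (c := 1) one_pos).const_mul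
      ((n * G) ^ 2)
    refine Integrable.mono' hi hmeas.aestronglyMeasurable ?_
    filter_upwards [self_mem_ae_restrict measurableSet_Ioi] with z hz
    have hz1 : (1 : ℝ) < z := hz
    have hz0 : 0 < z := by linarith
    have h1 := F_nonneg g n z
    have h2 := F_le_one g n z
    rw [Real.norm_eq_abs, abs_of_nonneg (by linarith)]
    have h3 := hT g n G z hgG hG hz0
    refine h3.trans (le_of_eq ?_)
    have h4 : z ^ (-2 : ℝ) = (z ^ 2)⁻¹ := by
      rw [Real.rpow_neg hz0.le]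
      norm_cast
    rw [h4]
    field_simp

theorem int_of_le (hM : S_MEF) (hT : S_TAI) {g : ℕ → ℝ} (hg : LBd g) (n m : ℕ) {f : ℝ → ℝ}
    (hf : Measurable f) (C : ℝ) (h : ∀ z, |f z| ≤ C * ((1 - F g n z) + (1 - F g m z))) :
    IntegrableOn f (Ioi 0) := by
  refine Integrable.mono' (((intB hM hT hg n).add (intB hM hT hg m)).const_mul C)
    hf.aestronglyMeasurable ?_
  exact Filter.Eventually.of_forall fun z => h z

theorem int_comp (f : ℝ → ℝ) (hf : IntegrableOn f (Ioi 0)) {p : ℝ} (hp : 0 < p) :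
    IntegrableOn (fun z => f (p * z)) (Ioi 0) := by
  have := (integrableOn_Ioi_comp_mul_left_iff f 0 hp).mpr (by simpa using hf)
  exact this

theorem integral_comp (f : ℝ → ℝ) {p : ℝ} (hp : 0 < p) :
    ∫ z in Ioi (0 : ℝ), f (p * z) = p⁻¹ * ∫ z in Ioi (0 : ℝ), f z := by
  have := integral_comp_mul_left_Ioi f 0 hp
  simpa using this

theorem F_anti (hA : S_ANT) (g : ℕ → ℝ) {n m : ℕ} (h : n ≤ m) (z : ℝ) : F g m z ≤ F g n z := by
  induction h with
  | refl => exact le_rfl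
  | step _ ih => exact (hA g _ z).trans ih

theorem J_nonneg (g : ℕ → ℝ) (n : ℕ) : 0 ≤ J g n := by
  unfold J
  apply setIntegral_nonneg measurableSet_Ioi
  intro z _
  have := F_le_one g n z
  linarith

theorem J_good {g : ℕ → ℝ} (hg : GoodSeq g) {n : ℕ} (hn : 1 ≤ n) : J g n = (n : ℝ) - 1 := by
  rcases hn.eq_or_lt with h | h
  · rw [← h, J_small 1 le_rfl]
    simp
  · exact hg.2.2 n h

theorem J_good_ge {g : ℕ → ℝ} (hg : GoodSeq g) (n : ℕ) : (n : ℝ) - 1 ≤ J g n := by
  rcases Nat.eq_zero_or_pos n with h | h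
  · have := J_nonneg g n
    rw [h] at this ⊢
    simp only [Nat.cast_zero]
    linarith
  · exact (J_good hg h).ge

theorem Psi_one (g : ℕ → ℝ) (n m : ℕ) :
    Psi g n m 1 1 = ∫ z in Ioi (0 : ℝ), (1 - F g n z * F g m z) := by
  unfold Psi
  simp only [div_one]

theorem intFF (hM : S_MEF) (hT : S_TAI) {g : ℕ → ℝ} (hg : LBd g) (n m : ℕ) :
    IntegrableOn (fun z => 1 - F g n z * F g m z) (Ioi 0) := by
  refine int_of_le hM hT hg n m (measurable_const.sub ((hM g n).mul (hM g m))) 1 fun z => ?_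
  have a1 := F_nonneg g n z
  have a2 := F_le_one g n z
  have b1 := F_nonneg g m z
  have b2 := F_le_one g m z
  have c1 : F g n z * F g m z ≤ 1 := mul_le_one₀ a2 b1 b2
  rw [abs_of_nonneg (by linarith)]
  nlinarith

/-- `0 ≤ W ≤ 1`. -/
theorem W_le_one (hM : S_MEF) (hT : S_TAI) {g : ℕ → ℝ} (hg : GoodSeq g) (k : ℕ) : W g k ≤ 1 := by
  rcases Nat.eq_zero_or_pos k with h | h
  · rw [h]
    unfold W
    simp
  have hk : (0 : ℝ) < k := by exact_mod_cast h
  have h1 : Psi g k k 1 1 ≤ 2 * J g k := by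
    rw [Psi_one]
    unfold J
    rw [← integral_const_mul]
    refine setIntegral_mono_on (intFF hM hT (lbd_good hg) k k)
      ((intB hM hT (lbd_good hg) k).const_mul 2) measurableSet_Ioi fun z _ => ?_
    have := F_nonneg g k z
    have := F_le_one g k z
    nlinarith
  rw [J_good hg h] at h1
  unfold W
  rw [one_div, inv_mul_le_iff₀ (by positivity)]
  linarith

theorem W_nonneg (g : ℕ → ℝ) (k : ℕ) : 0 ≤ W g k := by
  unfold W
  apply mul_nonneg (by positivity)
  rw [Psi_one]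
  apply setIntegral_nonneg measurableSet_Ioi
  intro z _
  have := F_le_one g k z
  have := F_nonneg g k z
  nlinarith

end Pool.Agent.Y367.CG
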