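import Pool.Agent.Y367.CG.Cvg

/-!
# The antithetic functional is asymptotically at most the independent one (`S_CMU`)
-/

open MeasureTheory Finset Set Filter Topology

namespace Pool.Agent.Y367.CG

open Pool.Agent.Y171.CG

/-- Thinning, integrated. -/
theorem J_thin (hTh : S_THL) (hM : S_MEF) (hT : S_TAI) {g : ℕ → ℝ} (hg : LBd g) (n : ℕ) {p : ℝ}
    (hp0 : 0 < p) (hp1 : p ≤ 1) :
    p⁻¹ * ∑ c ∈ range (n + 1), bw n p c * J g c ≤ J g n := by
  have h1 : ∑ c ∈ range (n + 1), bw n p c * J g c =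
      ∫ y in Ioi (0 : ℝ), ∑ c ∈ range (n + 1), bw n p c * (1 - F g c y) := by
    rw [integral_finsetSum _ (fun c _ => (intB hM hT hg c).const_mul _)]
    apply Finset.sum_congr rfl
    intro c _
    rw [integral_const_mul]
    rfl
  have hint : IntegrableOn (fun y => ∑ c ∈ range (n + 1), bw n p c * (1 - F g c y)) (Ioi 0) :=
    integrable_finsetSum _ (fun c _ => (intB hM hT hg c).const_mul _)
  rw [h1, ← integral_comp _ hp0]
  unfold J
  refine setIntegral_mono_on (int_comp _ hint hp0) (intB hM hT hg n) measurableSet_Ioi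
    fun z hz => ?_
  have h2 := hTh g n p z hp0 hp1 hz
  have h3 : ∑ c ∈ range (n + 1), bw n p c * (1 - F g c (p * z)) =
      1 - ∑ c ∈ range (n + 1), bw n p c * F g c (p * z) := by
    have := sum_bw n p (fun c => F g c (p * z)) 1
    simpa using this
  rw [h3]
  linarith

theorem tr_le {g : ℕ → ℝ} (hg : GoodSeq g) (R : ℕ) {r : ℕ} (hr : 2 ≤ r) : tr g R r ≤ g r := by
  unfold tr
  split_ifs
  · exact le_rfl
  · exact (hg.1 r hr).le

theorem tr_nonneg {g : ℕ → ℝ} (hg : GoodSeq g) (R : ℕ) {r : ℕ} (hr : 2 ≤ r) : 0 ≤ tr g R r := by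
  unfold tr
  split_ifs
  · exact (hg.1 r hr).le
  · exact le_rfl

theorem tr_le_R {g : ℕ → ℝ} (hg : GoodSeq g) {R : ℕ} (hR : 2 ≤ R) {r : ℕ} (hr : 2 ≤ r) :
    tr g R r ≤ g R := by
  unfold tr
  split_ifs with h
  · exact hg.2.1 r R hr h
  · exact (hg.1 R hR).le

theorem F_tr_eq (hMo : S_MOG) (g : ℕ → ℝ) {R c : ℕ} (hc : c ≤ R) (z : ℝ) :
    F (tr g R) c z = F g c z := by
  apply le_antisymm
  · apply hMo
    intro r _ hr'
    unfold tr
    rw [if_pos (by omega)]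
  · apply hMo
    intro r _ hr'
    unfold tr
    rw [if_pos (by omega)]

theorem J_tr_ge (hA : S_ANT) (hMo : S_MOG) (hM : S_MEF) (hT : S_TAI) {g : ℕ → ℝ}
    (hg : GoodSeq g) (R c : ℕ) : (R : ℝ) - max ((R : ℝ) - c) 0 - 1 ≤ J (tr g R) c := by
  rcases le_or_gt c R with h | h
  · have h1 : J (tr g R) c = J g c := by
      unfold J
      simp only [F_tr_eq hMo g h]
    rw [h1]
    have h2 := J_good_ge hg c
    have h3 := le_max_left ((R : ℝ) - c) 0
    linarith
  · have h1 : J g R ≤ J (tr g R) c := by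
      unfold J
      refine setIntegral_mono_on (intB hM hT (lbd_good hg) R) (intB hM hT (lbd_tr hg R) c)
        measurableSet_Ioi fun z _ => ?_
      have h4 := F_anti hA (tr g R) h.le z
      rw [F_tr_eq hMo g le_rfl] at h4
      linarith
    have h2 := J_good_ge hg R
    have h3 := le_max_right ((R : ℝ) - c) 0
    linarith

/-- The truncated sequence loses little. -/
theorem J_tr_tail (hTh : S_THL) (hB : S_BIN) (hA : S_ANT) (hMo : S_MOG) (hM : S_MEF)
    (hT : S_TAI) {g : ℕ → ℝ} (hg : GoodSeq g) {R k : ℕ} (hR : 1 ≤ R) (hRk : R ≤ k) :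
    J g k - J (tr g R) k ≤ k * (1 / √(R : ℝ) + 1 / R) := by
  have hR0 : (0 : ℝ) < R := by exact_mod_cast hR
  have hk0 : (0 : ℝ) < k := by exact_mod_cast (lt_of_lt_of_le hR hRk)
  have hRk' : (R : ℝ) ≤ k := by exact_mod_cast hRk
  set p : ℝ := (R : ℝ) / k with hp
  have hp0 : 0 < p := by positivity
  have hp1 : p ≤ 1 := by
    rw [hp, div_le_one hk0]
    exact hRk'
  have hkp : (k : ℝ) * p = R := by
    rw [hp]
    field_simp
  have h1 := J_thin hTh hM hT (lbd_tr hg R) k hp0 hp1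
  have h2 : (R : ℝ) - √(R : ℝ) - 1 ≤ ∑ c ∈ range (k + 1), bw k p c * J (tr g R) c := by
    have h3 : ∑ c ∈ range (k + 1), bw k p c * ((R : ℝ) - max ((R : ℝ) - c) 0 - 1) ≤
        ∑ c ∈ range (k + 1), bw k p c * J (tr g R) c :=
      Finset.sum_le_sum fun c _ => mul_le_mul_of_nonneg_left (J_tr_ge hA hMo hM hT hg R c)
        (bw_nonneg hp0.le hp1 c)
    have h4 : ∑ c ∈ range (k + 1), bw k p c * ((R : ℝ) - max ((R : ℝ) - c) 0 - 1) =
        (R - 1) - ∑ c ∈ range (k + 1), bw k p c * max ((R : ℝ) - c) 0 := by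
      have h5 : ∑ c ∈ range (k + 1), bw k p c * ((R : ℝ) - max ((R : ℝ) - c) 0 - 1) =
          (∑ c ∈ range (k + 1), bw k p c) * (R - 1) -
            ∑ c ∈ range (k + 1), bw k p c * max ((R : ℝ) - c) 0 := by
        rw [Finset.sum_mul, ← Finset.sum_sub_distrib]
        apply Finset.sum_congr rfl
        intro c _
        ring
      rw [h5, bw_sum, one_mul]
    have h6 := hB k p hp0.le hp1
    rw [hkp] at h6
    linarith
  have h7 := mul_le_mul_of_nonneg_left h2 (inv_nonneg.mpr hp0.le)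
  rw [J_good hg (hR.trans hRk)]
  have h8 : p⁻¹ * ((R : ℝ) - √(R : ℝ) - 1) = k - k * (1 / √(R : ℝ) + 1 / R) := by
    have hs : √(R : ℝ) * √(R : ℝ) = R := Real.mul_self_sqrt hR0.le
    have hs0 : 0 < √(R : ℝ) := Real.sqrt_pos.mpr hR0
    have h15 : 1 / √(R : ℝ) = √(R : ℝ) / R := by
      rw [div_eq_div_iff hs0.ne' hR0.ne', hs]
      ring
    rw [h15, hp]
    field_simp
    ring
  rw [h8] at h7
  linarith

/-- Square integrable tails: `B` for unit masses. -/
theorem intBB (hMB : S_MEB) (hTB : S_TAB) {g : ℕ → ℝ} (k : ℕ) {G : ℝ} (hG : 0 ≤ G)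
    (hg : ∀ r, 2 ≤ r → r ≤ k → 0 ≤ g r ∧ g r ≤ G) :
    IntegrableOn (fun z => B g (fun (_ : Bool) (_ : Fin k) => (1 : ℝ)) z) (Ioi 0) := by
  have hmeas : Measurable (fun z : ℝ => B g (fun (_ : Bool) (_ : Fin k) => (1 : ℝ)) z) :=
    hMB k g _
  rw [← Ioc_union_Ioi_eq_Ioi (zero_le_one' ℝ)]
  refine IntegrableOn.union ?_ ?_
  · refine Measure.integrableOn_of_bounded (M := 1) (by simp) hmeas.aestronglyMeasurable ?_
    refine Filter.Eventually.of_forall fun z => ?_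
    rw [Real.norm_eq_abs, abs_le]
    have h1 := B_nonneg g (fun (_ : Bool) (_ : Fin k) => (1 : ℝ)) z
    have h2 := B_le_one g (fun (_ : Bool) (_ : Fin k) => (1 : ℝ)) z
    constructor <;> linarith
  · have hi := (integrableOn_Ioi_rpow_of_lt (a := -2) (by norm_num) (c := 1) one_pos).const_mul
      (2 * (k * (G * 1)) ^ 2)
    refine Integrable.mono' hi hmeas.aestronglyMeasurable ?_
    filter_upwards [self_mem_ae_restrict measurableSet_Ioi] with z hz
    have hz1 : (1 : ℝ) < z := hz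
    have hz0 : 0 < z := by linarith
    rw [Real.norm_eq_abs, abs_of_nonneg (B_nonneg _ _ _)]
    have h3 := hTB k g (fun (_ : Bool) (_ : Fin k) => (1 : ℝ)) G 1 z hg
      (fun _ _ => ⟨zero_le_one, le_rfl⟩) hG zero_le_one hz0
    refine h3.trans (le_of_eq ?_)
    have h4 : z ^ (-2 : ℝ) = (z ^ 2)⁻¹ := by
      rw [Real.rpow_neg hz0.le]
      norm_cast
    rw [h4]
    field_simp

/-- Upper bound of the truncated antithetic functional. -/
theorem B_tr_le (hH : S_HYB) (hMo : S_MOG) (hM : S_MEF) (hT : S_TAI) (hMB : S_MEB)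
    (hTB : S_TAB) {g : ℕ → ℝ} (hg : GoodSeq g) {R : ℕ} (hR : 2 ≤ R) (k : ℕ) {e : ℝ}
    (he : 0 < e) (he1 : e ≤ 1) :
    ∫ z in Ioi (0 : ℝ), B (tr g R) (fun (_ : Bool) (_ : Fin k) => (1 : ℝ)) z ≤
      (1 + e) ^ 2 * g R / (2 * e) + (1 + e) * Psi g k k 1 1 := by
  set z0 : ℝ := (1 + e) ^ 2 * g R / (2 * e) with hz0
  have hgR := hg.1 R hR
  have hz0p : 0 < z0 := by positivity
  have hq0 : (0 : ℝ) < (1 + e)⁻¹ := by positivity
  have hpsi : (1 + e) * Psi g k k 1 1 =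
      ∫ z in Ioi (0 : ℝ), (1 - F g k ((1 + e)⁻¹ * z) * F g k ((1 + e)⁻¹ * z)) := by
    have := integral_comp (fun z => 1 - F g k z * F g k z) hq0
    rw [this, inv_inv, Psi_one]
  have hi2 : IntegrableOn (fun z => 1 - F g k ((1 + e)⁻¹ * z) * F g k ((1 + e)⁻¹ * z)) (Ioi 0) :=
    int_comp (fun z => 1 - F g k z * F g k z) (intFF hM hT (lbd_good hg) k k) hq0
  have hz0I : z0 = ∫ z in Ioi (0 : ℝ), (Set.Ioc (0 : ℝ) z0).indicator (fun _ => (1 : ℝ)) z := by
    rw [setIntegral_indicator measurableSet_Ioc]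
    have : Set.Ioi (0 : ℝ) ∩ Set.Ioc 0 z0 = Set.Ioc 0 z0 := by
      apply Set.inter_eq_right.mpr
      intro z hz
      exact hz.1
    rw [this, setIntegral_const]
    simp [hz0p.le]
  have hind : IntegrableOn ((Set.Ioc (0 : ℝ) z0).indicator (fun _ => (1 : ℝ))) (Ioi 0) := by
    apply Integrable.restrict
    rw [integrable_indicator_iff measurableSet_Ioc]
    exact integrableOn_const (by simp)
  rw [hpsi, hz0I, ← integral_add hind hi2]
  have hiB : IntegrableOn (fun z => B (tr g R) (fun (_ : Bool) (_ : Fin k) => (1 : ℝ)) z)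
      (Ioi 0) := intBB hMB hTB k hgR.le fun r hr _ => ⟨tr_nonneg hg R hr, tr_le_R hg hR hr⟩
  refine setIntegral_mono_on hiB (hind.add hi2) measurableSet_Ioi fun z hz => ?_
  have hzp : (0 : ℝ) < z := hz
  have a1 := F_nonneg g k ((1 + e)⁻¹ * z)
  have a2 := F_le_one g k ((1 + e)⁻¹ * z)
  rcases le_or_gt z z0 with h | h
  · have hmem : z ∈ Set.Ioc (0 : ℝ) z0 := ⟨hzp, h⟩
    rw [Set.indicator_of_mem hmem]
    have := B_le_one (tr g R) (fun (_ : Bool) (_ : Fin k) => (1 : ℝ)) z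
    nlinarith
  · have hmem : z ∉ Set.Ioc (0 : ℝ) z0 := fun h' => absurd h'.2 (not_le.mpr h)
    rw [Set.indicator_of_notMem hmem, zero_add]
    have h1 : (1 + e) ^ 2 * g R ≤ 2 * e * z := by
      rw [hz0, div_lt_iff₀ (by positivity)] at h
      linarith
    refine (hH k (tr g R) (g R) e z (fun r hr => ⟨tr_nonneg hg R hr, tr_le_R hg hR hr⟩) he he1
      hzp h1).trans ?_
    have h2 : z / (1 + e) = (1 + e)⁻¹ * z := by rw [div_eq_inv_mul]
    rw [h2]
    have h3 : F g k ((1 + e)⁻¹ * z) ≤ F (tr g R) k ((1 + e)⁻¹ * z) :=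
      hMo (tr g R) g k _ fun r hr _ => tr_le hg R hr
    have h4 := mul_self_le_mul_self a1 h3
    nlinarith

/-- `S_CMU`. -/
theorem cmu (hTr : S_TRU) (hH : S_HYB) (hTh : S_THL) (hB : S_BIN) (hA : S_ANT) (hMo : S_MOG)
    (hM : S_MEF) (hMB : S_MEB) (hT : S_TAI) (hTB : S_TAB) : S_CMU := by
  intro g hg e' he'
  set e : ℝ := min 1 (e' / 4) with hedef
  have he : 0 < e := lt_min one_pos (by positivity)
  have he1 : e ≤ 1 := min_le_left _ _
  have he4 : e ≤ e' / 4 := min_le_right _ _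
  have t1 : Tendsto (fun n : ℕ => 1 / √(n : ℝ)) atTop (𝓝 0) := by
    simp only [one_div]
    exact tendsto_inv_atTop_zero.comp (Real.tendsto_sqrt_atTop.comp tendsto_natCast_atTop_atTop)
  have t2 : Tendsto (fun n : ℕ => 1 / (n : ℝ)) atTop (𝓝 0) := tendsto_one_div_atTop_nhds_zero_nat
  obtain ⟨R, hR2, hRa, hRb⟩ : ∃ R : ℕ, 2 ≤ R ∧ 1 / √(R : ℝ) < e' / 4 ∧ 1 / (R : ℝ) < e' / 4 := by
    have h1 : ∀ᶠ n : ℕ in atTop, 1 / √(n : ℝ) < e' / 4 :=
      (tendsto_order.mp t1).2 _ (by positivity)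
    have h2 : ∀ᶠ n : ℕ in atTop, 1 / (n : ℝ) < e' / 4 :=
      (tendsto_order.mp t2).2 _ (by positivity)
    obtain ⟨R, hR⟩ := ((eventually_ge_atTop 2).and (h1.and h2)).exists
    exact ⟨R, hR.1, hR.2.1, hR.2.2⟩
  have hgR := hg.1 R hR2
  set z0 : ℝ := (1 + e) ^ 2 * g R / (2 * e) with hz0
  have hz0p : 0 < z0 := by positivity
  have t3 : Tendsto (fun n : ℕ => z0 / 2 * (1 / (n : ℝ))) atTop (𝓝 (z0 / 2 * 0)) :=
    t2.const_mul _
  rw [mul_zero] at t3
  have h3 : ∀ᶠ n : ℕ in atTop, z0 / 2 * (1 / (n : ℝ)) < e' / 4 :=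
    (tendsto_order.mp t3).2 _ (by positivity)
  filter_upwards [eventually_ge_atTop R, h3] with k hk hk3
  have hk0 : (0 : ℝ) < k := by
    have : 0 < k := by omega
    exact_mod_cast this
  have hl := lbd_good hg
  -- integrate `S_TRU`
  have hiB : IntegrableOn (fun z => B (tr g R) (fun (_ : Bool) (_ : Fin k) => (1 : ℝ)) z)
      (Ioi 0) := intBB hMB hTB k hgR.le fun r hr _ => ⟨tr_nonneg hg R hr, tr_le_R hg hR2 hr⟩
  obtain ⟨G, hG, hgG⟩ := hl k
  have hiBg : IntegrableOn (fun z => B g (fun (_ : Bool) (_ : Fin k) => (1 : ℝ)) z)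
      (Ioi 0) := intBB hMB hTB k hG fun r hr hr' => ⟨(hg.1 r hr).le, hgG r hr hr'⟩
  have hiF : IntegrableOn (fun z => F (tr g R) k z - F g k z) (Ioi 0) := by
    have := (intB hM hT hl k).sub (intB hM hT (lbd_tr hg R) k)
    refine this.congr (Filter.Eventually.of_forall fun z => ?_)
    simp only [Pi.sub_apply]
    ring
  have h4 : ∫ z in Ioi (0 : ℝ), B g (fun (_ : Bool) (_ : Fin k) => (1 : ℝ)) z ≤
      ∫ z in Ioi (0 : ℝ), (B (tr g R) (fun (_ : Bool) (_ : Fin k) => (1 : ℝ)) z +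
        2 * (F (tr g R) k z - F g k z)) := by
    refine setIntegral_mono_on hiBg (hiB.add (hiF.const_mul 2)) measurableSet_Ioi fun z hz => ?_
    exact hTr k g R z (fun r hr => (hg.1 r hr).le) hz
  rw [integral_add hiB (hiF.const_mul 2), integral_const_mul] at h4
  have h5 : ∫ z in Ioi (0 : ℝ), (F (tr g R) k z - F g k z) = J g k - J (tr g R) k := by
    unfold J
    rw [← integral_sub (intB hM hT hl k) (intB hM hT (lbd_tr hg R) k)]
    congr 1
    funext z
    ring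
  rw [h5] at h4
  have h6 := J_tr_tail hTh hB hA hMo hM hT hg (R := R) (k := k) (by omega) hk
  have h7 := B_tr_le hH hMo hM hT hMB hTB hg hR2 k he he1
  rw [← hz0] at h7
  have h8 : Wa g k ≤ 1 / (2 * (k : ℝ)) * (z0 + (1 + e) * Psi g k k 1 1 +
      2 * (k * (1 / √(R : ℝ) + 1 / R))) := by
    unfold Wa
    apply mul_le_mul_of_nonneg_left _ (by positivity)
    linarith
  have h9 : 1 / (2 * (k : ℝ)) * (z0 + (1 + e) * Psi g k k 1 1 +
      2 * (k * (1 / √(R : ℝ) + 1 / R))) =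
      z0 / 2 * (1 / (k : ℝ)) + (1 + e) * W g k + (1 / √(R : ℝ) + 1 / R) := by
    unfold W
    have hRs : (0 : ℝ) < √(R : ℝ) := Real.sqrt_pos.mpr (by
      have : 0 < R := by omega
      exact_mod_cast this)
    have hR0 : (0 : ℝ) < R := by
      have : 0 < R := by omega
      exact_mod_cast this
    field_simp
  rw [h9] at h8
  have h10 := W_le_one hM hT hg k
  nlinarith [W_nonneg g k]

end Pool.Agent.Y367.CG
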