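import Pool.Agent.Y171.CG.Tool

/-!
# The main induction of the lower bound (`S_LOW`)
-/

open MeasureTheory Finset Set Filter Topology

namespace Pool.Agent.Y367.CG

open Pool.Agent.Y171.CG

theorem F_small (g : ℕ → ℝ) (n : ℕ) (hn : n ≤ 1) (z : ℝ) : F g n z = 1 := by
  unfold F
  have : {u : Fin n → ℝ | ¬ Hit g (fun _ => 1) z u} = Set.univ := by
    ext u
    simp only [Set.mem_ofPred_eq, Set.mem_univ, iff_true]
    rintro ⟨r, hr, hr'⟩
    have h3 := hr'.trans (cnt_le _ z u)
    omega
  rw [this]
  simp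

theorem bw_sum (n : ℕ) (p : ℝ) : ∑ c ∈ range (n + 1), bw n p c = 1 := by
  have h := add_pow p (1 - p) n
  have h1 : p + (1 - p) = 1 := by ring
  rw [h1, one_pow] at h
  rw [h]
  apply Finset.sum_congr rfl
  intro c _
  unfold bw
  ring

theorem bw_nonneg {n : ℕ} {p : ℝ} (h0 : 0 ≤ p) (h1 : p ≤ 1) (c : ℕ) : 0 ≤ bw n p c := by
  unfold bw
  have : 0 ≤ 1 - p := by linarith
  positivity

theorem sum_bw (n : ℕ) (p : ℝ) (f : ℕ → ℝ) (y : ℝ) :
    ∑ c ∈ range (n + 1), bw n p c * (1 - f c * y) =
      1 - (∑ c ∈ range (n + 1), bw n p c * f c) * y := by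
  have h : ∑ c ∈ range (n + 1), bw n p c * (1 - f c * y) =
      ∑ c ∈ range (n + 1), bw n p c - (∑ c ∈ range (n + 1), bw n p c * f c) * y := by
    rw [Finset.sum_mul, ← Finset.sum_sub_distrib]
    apply Finset.sum_congr rfl
    intro c _
    ring
  rw [h, bw_sum]

theorem bw_self (n : ℕ) (p : ℝ) : bw n p n = p ^ n := by
  unfold bw
  simp

section

variable {g : ℕ → ℝ}

theorem meas_one (hM : S_MEF) (n : ℕ) (a : ℝ) : Measurable (fun z : ℝ => F g n (z / a)) :=
  (hM g n).comp (measurable_id.div_const a)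

theorem int_one (hM : S_MEF) (hT : S_TAI) (hg : ∀ r, 2 ≤ r → 0 < g r)
    (hmo : ∀ r t, 2 ≤ r → r ≤ t → g r ≤ g t) (n : ℕ) {a : ℝ} (ha : 0 < a) :
    IntegrableOn (fun z => 1 - F g n (z / a)) (Ioi 0) := by
  have hmeas : Measurable (fun z : ℝ => 1 - F g n (z / a)) :=
    measurable_const.sub (meas_one hM n a)
  rw [← Ioc_union_Ioi_eq_Ioi (zero_le_one' ℝ)]
  refine IntegrableOn.union ?_ ?_
  · refine Measure.integrableOn_of_bounded (M := 1) (by simp) hmeas.aestronglyMeasurable ?_
    refine Filter.Eventually.of_forall fun z => ?_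
    rw [Real.norm_eq_abs, abs_le]
    have h1 := F_nonneg g n (z / a)
    have h2 := F_le_one g n (z / a)
    constructor <;> linarith
  · have hi := (integrableOn_Ioi_rpow_of_lt (a := -2) (by norm_num) (c := 1) one_pos).const_mul
      ((n * g (n + 2) * a) ^ 2)
    refine Integrable.mono' hi hmeas.aestronglyMeasurable ?_
    filter_upwards [self_mem_ae_restrict measurableSet_Ioi] with z hz
    have hz1 : (1 : ℝ) < z := hz
    have hz0 : 0 < z := by linarith
    have h1 := F_nonneg g n (z / a)
    have h2 := F_le_one g n (z / a)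
    rw [Real.norm_eq_abs, abs_of_nonneg (by linarith)]
    have h3 := hT g n (g (n + 2)) (z / a) (fun r hr hr' => hmo r _ hr (by omega))
      (hg _ (by omega)).le (div_pos hz0 ha)
    refine h3.trans (le_of_eq ?_)
    have h4 : z ^ (-2 : ℝ) = (z ^ 2)⁻¹ := by
      rw [Real.rpow_neg hz0.le]
      norm_cast
    rw [h4]
    field_simp

theorem int_two (hM : S_MEF) (hT : S_TAI) (hg : ∀ r, 2 ≤ r → 0 < g r)
    (hmo : ∀ r t, 2 ≤ r → r ≤ t → g r ≤ g t) (n m : ℕ) {a b : ℝ} (ha : 0 < a) (hb : 0 < b) :
    IntegrableOn (fun z => 1 - F g n (z / a) * F g m (z / b)) (Ioi 0) := by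
  have h1 := int_one (g := g) hM hT hg hmo n ha
  have h2 := int_one (g := g) hM hT hg hmo m hb
  have h3 := h1.add h2
  refine Integrable.mono' h3 ?_ ?_
  · exact (measurable_const.sub ((meas_one hM n a).mul (meas_one hM m b))).aestronglyMeasurable
  · refine Filter.Eventually.of_forall fun z => ?_
    have a1 := F_nonneg g n (z / a)
    have a2 := F_le_one g n (z / a)
    have b1 := F_nonneg g m (z / b)
    have b2 := F_le_one g m (z / b)
    have c1 : F g n (z / a) * F g m (z / b) ≤ 1 := mul_le_one₀ a2 b1 b2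
    rw [Real.norm_eq_abs, abs_of_nonneg (by linarith)]
    simp only [Pi.add_apply]
    nlinarith

theorem Psi_swap (n m : ℕ) (a b : ℝ) : Psi g n m a b = Psi g m n b a := by
  unfold Psi
  refine setIntegral_congr_fun measurableSet_Ioi fun z _ => ?_
  show 1 - F g n (z / a) * F g m (z / b) = 1 - F g m (z / b) * F g n (z / a)
  ring

theorem Psi_scale (n m : ℕ) (a b : ℝ) {c : ℝ} (hc : 0 < c) :
    Psi g n m (c * a) (c * b) = c * Psi g n m a b := by
  unfold Psi
  have h := integral_comp_mul_left_Ioi
    (fun z => 1 - F g n (z / (c * a)) * F g m (z / (c * b))) 0 hc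
  simp only [mul_zero, smul_eq_mul] at h
  have h2 : ∀ z : ℝ, (1 - F g n (c * z / (c * a)) * F g m (c * z / (c * b))) =
      1 - F g n (z / a) * F g m (z / b) := by
    intro z
    rw [mul_div_mul_left _ _ hc.ne', mul_div_mul_left _ _ hc.ne']
  simp only [h2] at h
  rw [h]
  field_simp

theorem Psi_small (n m : ℕ) (hn : n ≤ 1) (a : ℝ) {b : ℝ} (hb : 0 < b) :
    Psi g n m a b = b * J g m := by
  have h1 : Psi g n m a b = Psi g n m (b * (a / b)) (b * 1) := by
    rw [mul_one, mul_div_cancel₀ _ hb.ne']
  rw [h1, Psi_scale _ _ _ _ hb]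
  unfold Psi J
  congr 1
  refine setIntegral_congr_fun measurableSet_Ioi fun z _ => ?_
  show 1 - F g n (z / (a / b)) * F g m (z / 1) = 1 - F g m z
  rw [F_small g n hn, div_one, one_mul]

theorem J_small (m : ℕ) (hm : m ≤ 1) : J g m = 0 := by
  unfold J
  simp [F_small g m hm]


/-- The weighted sum of the values of the thinned states. -/
noncomputable def PS (g : ℕ → ℝ) (n m : ℕ) (a b p : ℝ) : ℝ :=
  ∑ c ∈ range (n + 1), bw n p c * Psi g c m (a / p) b

/-- Thinning identity. -/
theorem Psi_thin (hE : S_THE) (hZ : S_ZER) (hM : S_MEF) (hT : S_TAI) (hg : ∀ r, 2 ≤ r → 0 < g r)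
    (hmo : ∀ r t, 2 ≤ r → r ≤ t → g r ≤ g t) {n m : ℕ} (hm : 2 ≤ m) {a b p : ℝ}
    (ha : 0 < a) (hb : 0 < b) (hp : 0 < p) (hp1 : p ≤ 1) (h : a * g n ≤ p * (b * g m)) :
    Psi g n m a b = PS g n m a b p := by
  unfold PS
  have h1 : ∀ c, bw n p c * Psi g c m (a / p) b =
      ∫ z in Set.Ioi (0 : ℝ), bw n p c * (1 - F g c (z / (a / p)) * F g m (z / b)) := by
    intro c
    rw [integral_const_mul]
    rfl
  simp only [h1]
  rw [← integral_finsetSum _ (fun c _ =>
    (int_two hM hT hg hmo c m (div_pos ha hp) hb).const_mul _)]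
  unfold Psi
  refine setIntegral_congr_fun measurableSet_Ioi fun z hz => ?_
  have hz0 : (0 : ℝ) < z := hz
  show 1 - F g n (z / a) * F g m (z / b) =
    ∑ c ∈ range (n + 1), bw n p c * (1 - F g c (z / (a / p)) * F g m (z / b))
  have h2 : ∑ c ∈ range (n + 1), bw n p c * (1 - F g c (z / (a / p)) * F g m (z / b)) =
      1 - (∑ c ∈ range (n + 1), bw n p c * F g c (p * (z / a))) * F g m (z / b) := by
    have h3 : z / (a / p) = p * (z / a) := by field_simp
    rw [h3, sum_bw n p (fun c => F g c (p * (z / a)))]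
  rw [h2]
  rcases le_or_gt z (b * g m) with h4 | h4
  · rw [hZ g m (z / b) hm (div_pos hz0 hb) (by rw [div_le_iff₀ hb]; linarith)]
    ring
  · have h5 : g n ≤ p * (z / a) := by
      rw [← mul_div_assoc, le_div_iff₀ ha]
      have := mul_le_mul_of_nonneg_left h4.le hp.le
      linarith
    rw [hE g n p (z / a) hp hp1 (div_pos hz0 ha) (fun r hr hr' => (hmo r n hr hr').trans h5)]

/-- The error of the thinning identity just after the tie. -/
theorem Psi_thin_err (hE : S_THE) (hZ : S_ZER) (hS : S_SML) (hM : S_MEF) (hT : S_TAI)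
    (hg : ∀ r, 2 ≤ r → 0 < g r)
    (hmo : ∀ r t, 2 ≤ r → r ≤ t → g r ≤ g t) {n m : ℕ} (hn : 2 ≤ n) (hm : 2 ≤ m) {e : ℝ}
    (he : 0 < e) :
    Psi g n m (1 / g n) (1 / g m) ≤ PS g n m (1 / g n) (1 / g m) (1 / (1 + e)) + m * e ^ 2 := by
  have hgn := hg n hn
  have hgm := hg m hm
  have ha : 0 < 1 / g n := by positivity
  have hb : 0 < 1 / g m := by positivity
  set p := 1 / (1 + e) with hpdef
  have hp : 0 < p := by positivity
  have hp1 : p ≤ 1 := by
    rw [hpdef, div_le_one (by linarith)]
    linarith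
  unfold PS
  have h1 : ∀ c, bw n p c * Psi g c m (1 / g n / p) (1 / g m) =
      ∫ z in Set.Ioi (0 : ℝ),
        bw n p c * (1 - F g c (z / (1 / g n / p)) * F g m (z / (1 / g m))) := by
    intro c
    rw [integral_const_mul]
    rfl
  simp only [h1]
  have hint : ∀ c ∈ range (n + 1), Integrable (fun z : ℝ =>
      bw n p c * (1 - F g c (z / (1 / g n / p)) * F g m (z / (1 / g m))))
      (volume.restrict (Set.Ioi 0)) := fun c _ =>
    (int_two hM hT hg hmo c m (div_pos ha hp) hb).const_mul _
  rw [← integral_finsetSum _ hint]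
  have h6 : (m : ℝ) * e ^ 2 = ∫ z in Set.Ioi (0 : ℝ),
      (Set.Ioc (1 : ℝ) (1 + e)).indicator (fun _ => (m : ℝ) * e) z := by
    rw [setIntegral_indicator measurableSet_Ioc]
    have : Set.Ioi (0 : ℝ) ∩ Set.Ioc 1 (1 + e) = Set.Ioc 1 (1 + e) := by
      apply Set.inter_eq_right.mpr
      intro z hz
      exact lt_trans zero_lt_one hz.1
    rw [this, setIntegral_const]
    simp [he.le]
    ring
  have hind : Integrable ((Set.Ioc (1 : ℝ) (1 + e)).indicator (fun _ => (m : ℝ) * e))
      (volume.restrict (Set.Ioi 0)) := by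
    apply Integrable.restrict
    rw [integrable_indicator_iff measurableSet_Ioc]
    exact integrableOn_const (by simp)
  rw [h6, ← integral_add (integrable_finsetSum _ hint) hind]
  unfold Psi
  refine setIntegral_mono_on (int_two hM hT hg hmo n m ha hb)
    ((integrable_finsetSum _ hint).add hind) measurableSet_Ioi fun z hz => ?_
  have hz0 : (0 : ℝ) < z := hz
  have h2 : ∑ c ∈ range (n + 1),
      bw n p c * (1 - F g c (z / (1 / g n / p)) * F g m (z / (1 / g m))) =
      1 - (∑ c ∈ range (n + 1), bw n p c * F g c (p * (z * g n))) * F g m (z * g m) := by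
    have h3 : z / (1 / g n / p) = p * (z * g n) := by field_simp
    have h3' : z / (1 / g m) = z * g m := by field_simp
    rw [h3, h3', sum_bw n p (fun c => F g c (p * (z * g n)))]
  have h3 : z / (1 / g n) = z * g n := by field_simp
  have h3' : z / (1 / g m) = z * g m := by field_simp
  rw [h2, h3, h3']
  have hind0 : 0 ≤ (Set.Ioc (1 : ℝ) (1 + e)).indicator (fun _ => (m : ℝ) * e) z := by
    apply Set.indicator_nonneg
    intro _ _
    positivity
  rcases le_or_gt z 1 with h4 | h4
  · rw [hZ g m (z * g m) hm (by positivity) (by nlinarith)]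
    linarith
  · rcases lt_or_ge (1 + e) z with h7 | h7
    · rw [hE g n p (z * g n) hp hp1 (by positivity) (fun r hr hr' => (hmo r n hr hr').trans ?_)]
      · linarith
      · rw [hpdef, one_div, ← div_eq_inv_mul, le_div_iff₀ (by linarith)]
        nlinarith
    · have hmem : z ∈ Set.Ioc (1 : ℝ) (1 + e) := ⟨h4, h7⟩
      rw [Set.indicator_of_mem hmem]
      have h8 := hS g m (z * g m) e hm hgm he.le (by positivity)
        (mul_le_mul_of_nonneg_right h7 hgm.le)
      have h9 : ∑ c ∈ range (n + 1), bw n p c * F g c (p * (z * g n)) ≤ 1 := by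
        rw [← bw_sum n p]
        apply Finset.sum_le_sum
        intro c _
        have := F_le_one g c (p * (z * g n))
        have := bw_nonneg (n := n) hp.le hp1 c
        nlinarith
      have h10 := F_nonneg g m (z * g m)
      have h11 := F_nonneg g n (z * g n)
      nlinarith [mul_nonneg h11 h10, mul_le_mul_of_nonneg_right h9 h10]

end

section main

variable {g : ℕ → ℝ} {Gd : ℕ → ℕ → ℝ → ℝ → ℝ → Prop}

/-- The claim for `n` and `m`. -/
def Tgt (g : ℕ → ℝ) (Gd : ℕ → ℕ → ℝ → ℝ → ℝ → Prop) (n m : ℕ) : Prop :=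
  ∀ a b v : ℝ, 0 < a → 0 < b → v < Psi g n m a b → Gd n m a b v

/-- The value at the tie. -/
noncomputable def TT (g : ℕ → ℝ) (Gd : ℕ → ℕ → ℝ → ℝ → ℝ → Prop) (n m : ℕ) : ℝ :=
  sSup {v | Gd n m (1 / g n) (1 / g m) v}

theorem thin_rule
    (h6 : ∀ (n m : ℕ) (a b p : ℝ) (w : ℕ → ℝ), 0 < a → 0 < b → 0 < p → p < 1 →
      (∀ c, c ≤ n → Gd c m (a / p) b (w c)) →
      Gd n m a b (∑ c ∈ range (n + 1), bw n p c * w c))
    {n m : ℕ} {a b p : ℝ} (ha : 0 < a) (hb : 0 < b) (hp : 0 < p) (hp1 : p < 1) (W : ℕ → ℝ)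
    (hW : ∀ c, c ≤ n → ∀ w, w < W c → Gd c m (a / p) b w) (v : ℝ)
    (hv : v < ∑ c ∈ range (n + 1), bw n p c * W c) : Gd n m a b v := by
  set R := ∑ c ∈ range (n + 1), bw n p c * W c with hR
  have h := h6 n m a b p (fun c => W c - (R - v)) ha hb hp hp1
    (fun c hc => hW c hc _ (by linarith))
  have h2 : ∑ c ∈ range (n + 1), bw n p c * (W c - (R - v)) = v := by
    have : ∑ c ∈ range (n + 1), bw n p c * (W c - (R - v)) =
        R - (∑ c ∈ range (n + 1), bw n p c) * (R - v) := by
      rw [hR, Finset.sum_mul, ← Finset.sum_sub_distrib]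
      apply Finset.sum_congr rfl
      intro c _
      ring
    rw [this, bw_sum]
    ring
  rw [h2] at h
  exact h

theorem tie_any
    (h1 : ∀ (n m : ℕ) (a b v v' : ℝ), Gd n m a b v → v' ≤ v → Gd n m a b v')
    (h2 : ∀ (n m : ℕ) (a b v c : ℝ), 0 < c → Gd n m a b v → Gd n m (c * a) (c * b) (c * v))
    {n m : ℕ} (hne : ∃ v, Gd n m (1 / g n) (1 / g m) v) {z : ℝ} (hz : 0 < z) (w : ℝ)
    (hw : w < z * TT g Gd n m) : Gd n m (z * (1 / g n)) (z * (1 / g m)) w := by
  have h3 : w / z < TT g Gd n m := by
    rw [div_lt_iff₀ hz]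
    linarith
  obtain ⟨v', hv', hlt⟩ := exists_lt_of_lt_csSup (s := {v | Gd n m (1 / g n) (1 / g m) v}) hne h3
  have h4 := h2 n m _ _ _ z hz (h1 n m _ _ v' (w / z) hv' hlt.le)
  rwa [mul_div_cancel₀ _ hz.ne'] at h4

theorem ahead (hE : S_THE) (hZ : S_ZER) (hM : S_MEF) (hT : S_TAI) (hg : ∀ r, 2 ≤ r → 0 < g r)
    (hmo : ∀ r t, 2 ≤ r → r ≤ t → g r ≤ g t)
    (h1 : ∀ (n m : ℕ) (a b v v' : ℝ), Gd n m a b v → v' ≤ v → Gd n m a b v')
    (h2 : ∀ (n m : ℕ) (a b v c : ℝ), 0 < c → Gd n m a b v → Gd n m (c * a) (c * b) (c * v))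
    (h6 : ∀ (n m : ℕ) (a b p : ℝ) (w : ℕ → ℝ), 0 < a → 0 < b → 0 < p → p < 1 →
      (∀ c, c ≤ n → Gd c m (a / p) b (w c)) →
      Gd n m a b (∑ c ∈ range (n + 1), bw n p c * w c))
    {n m : ℕ} (hn : 2 ≤ n) (hm : 2 ≤ m) (hne : ∃ v, Gd n m (1 / g n) (1 / g m) v)
    (ih : ∀ c, c < n → Tgt g Gd c m) {a b : ℝ} (ha : 0 < a) (hb : 0 < b)
    (hab : a * g n ≤ b * g m) (v : ℝ)
    (hv : v < Psi g n m a b + (a * g n / (b * g m)) ^ n * (b * g m) *
      (TT g Gd n m - Psi g n m (1 / g n) (1 / g m))) : Gd n m a b v := by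
  have hgn := hg n hn
  have hgm := hg m hm
  set z := b * g m with hz
  have hz0 : 0 < z := by positivity
  set p := a * g n / z with hp
  have hp0 : 0 < p := by positivity
  have hp1 : p ≤ 1 := by
    rw [hp, div_le_one hz0]
    exact hab
  have hbz : z * (1 / g m) = b := by
    rw [hz]
    field_simp
  have haz : z * (1 / g n) = a / p := by
    rw [hp]
    field_simp
  rcases hp1.eq_or_lt with h | h
  · rw [h, div_one] at haz
    rw [h, one_pow, one_mul] at hv
    have h3 : Psi g n m a b = z * Psi g n m (1 / g n) (1 / g m) := by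
      rw [← haz, ← hbz]
      exact Psi_scale n m _ _ hz0
    rw [← haz, ← hbz]
    apply tie_any h1 h2 hne hz0
    rw [h3] at hv
    linarith
  · apply thin_rule h6 ha hb hp0 h
      (fun c => if c = n then z * TT g Gd n m else Psi g c m (a / p) b)
    · intro c hc w hw
      by_cases hcn : c = n
      · subst hcn
        simp only [if_true] at hw
        rw [← haz, ← hbz]
        exact tie_any h1 h2 hne hz0 w hw
      · simp only [hcn, if_false] at hw
        exact ih c (lt_of_le_of_ne hc hcn) (a / p) b w (div_pos ha hp0) hb hw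
    · refine hv.trans_le (le_of_eq ?_)
      have h7 : a * g n ≤ p * (b * g m) := by
        rw [← hz, hp, div_mul_cancel₀ _ hz0.ne']
      rw [Psi_thin hE hZ hM hT hg hmo hm ha hb hp0 hp1 h7]
      unfold PS
      rw [Finset.sum_range_succ, Finset.sum_range_succ, bw_self, if_pos rfl]
      have h8 : ∑ c ∈ range n, bw n p c *
          (if c = n then z * TT g Gd n m else Psi g c m (a / p) b) =
          ∑ c ∈ range n, bw n p c * Psi g c m (a / p) b := by
        apply Finset.sum_congr rfl
        intro c hc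
        rw [if_neg (Finset.mem_range.mp hc).ne]
      rw [h8]
      have h9 : Psi g n m (a / p) b = z * Psi g n m (1 / g n) (1 / g m) := by
        rw [← haz]
        nth_rewrite 1 [← hbz]
        exact Psi_scale n m _ _ hz0
      rw [h9]
      ring

theorem t (hE : S_THE) (hZ : S_ZER) (hS : S_SML) (hM : S_MEF) (hT : S_TAI) (_ : S_ANT) :
    S_LOW := by
  intro g N hg hmo hJ Gd h1 h2 h3 h4 h5 h6
  have key : ∀ k n m : ℕ, n + m = k → n ≤ N → m ≤ N → Tgt g Gd n m := by
    intro k
    induction k using Nat.strong_induction_on with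
    | _ k ih =>
    intro n m hk hnN hmN
    -- a small number of candidates
    have hsmall : ∀ n m : ℕ, m ≤ N → n ≤ 1 → Tgt g Gd n m := by
      intro n m hmN hn a b v ha hb hv
      rw [Psi_small n m hn a hb] at hv
      apply h3
      apply h4 m n b a v hb ha
      rcases le_or_gt m 1 with hm | hm
      · rw [J_small m hm, mul_zero] at hv
        exact hv.le.trans (le_max_right _ _)
      · refine le_trans (hv.le.trans ?_) (le_max_left _ _)
        exact mul_le_mul_of_nonneg_left (hJ m hm hmN) hb.le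
    rcases le_or_gt n 1 with hn | hn
    · exact hsmall n m hmN hn
    rcases le_or_gt m 1 with hm | hm
    · intro a b v ha hb hv
      apply h3
      rw [Psi_swap] at hv
      exact hsmall m n hnN hm b a v hb ha hv
    have hn2 : 2 ≤ n := hn
    have hm2 : 2 ≤ m := hm
    have hgn := hg n hn2
    have hgm := hg m hm2
    have hne : ∃ v, Gd n m (1 / g n) (1 / g m) v :=
      ⟨0, h4 n m _ _ 0 (by positivity) (by positivity) (le_max_right _ _)⟩
    have hne' : ∃ v, Gd m n (1 / g m) (1 / g n) v :=
      ⟨0, h4 m n _ _ 0 (by positivity) (by positivity) (le_max_right _ _)⟩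
    have hbdd : BddAbove {v | Gd n m (1 / g n) (1 / g m) v} :=
      ⟨_, fun v hv => h5 n m _ _ v hnN hmN (by positivity) (by positivity) hv⟩
    have hTT : TT g Gd m n = TT g Gd n m := by
      unfold TT
      congr 1
      ext v
      exact ⟨fun h => h3 _ _ _ _ _ h, fun h => h3 _ _ _ _ _ h⟩
    have ih1 : ∀ c, c < n → Tgt g Gd c m := fun c hc =>
      ih (c + m) (by omega) c m rfl (by omega) hmN
    have ih2 : ∀ c, c < m → Tgt g Gd c n := fun c hc =>
      ih (c + n) (by omega) c n rfl (by omega) hnN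
    set T := TT g Gd n m with hTdef
    set tau := Psi g n m (1 / g n) (1 / g m) with htau
    have htau' : Psi g m n (1 / g m) (1 / g n) = tau := by rw [htau, Psi_swap]
    -- step C
    have hC : ∀ e : ℝ, 0 < e →
        PS g n m (1 / g n) (1 / g m) (1 / (1 + e)) +
          (1 / (1 + e)) ^ (n + m) * (1 + e) * (T - tau) ≤ T := by
      intro e he
      apply le_of_forall_lt
      intro v hv
      refine lt_of_lt_of_le (b := (v + (PS g n m (1 / g n) (1 / g m) (1 / (1 + e)) +
          (1 / (1 + e)) ^ (n + m) * (1 + e) * (T - tau))) / 2) (by linarith) ?_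
      have hv' : (v + (PS g n m (1 / g n) (1 / g m) (1 / (1 + e)) +
          (1 / (1 + e)) ^ (n + m) * (1 + e) * (T - tau))) / 2 <
          (PS g n m (1 / g n) (1 / g m) (1 / (1 + e)) +
          (1 / (1 + e)) ^ (n + m) * (1 + e) * (T - tau)) := by linarith
      generalize (v + (PS g n m (1 / g n) (1 / g m) (1 / (1 + e)) +
          (1 / (1 + e)) ^ (n + m) * (1 + e) * (T - tau))) / 2 = v' at hv'
      apply le_csSup hbdd
      show Gd n m (1 / g n) (1 / g m) v'
      set p := 1 / (1 + e) with hp
      have hp0 : 0 < p := by positivity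
      have hp1 : p < 1 := by
        rw [hp, div_lt_one (by linarith)]
        linarith
      have hpe : (1 : ℝ) / g n / p = (1 + e) / g n := by
        rw [hp]
        field_simp
      apply thin_rule h6 (by positivity) (by positivity) hp0 hp1
        (fun c => Psi g c m (1 / g n / p) (1 / g m) +
          if c = n then p ^ m * (1 + e) * (T - tau) else 0)
      · intro c hc w hw
        by_cases hcn : c = n
        · subst hcn
          simp only [if_true] at hw
          apply h3
          apply ahead hE hZ hM hT hg hmo h1 h2 h6 hm2 hn2 hne' ih2 (by positivity)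
            (by positivity) (a := 1 / g m) (b := 1 / g c / p)
          · rw [hpe]
            have e1 : 1 / g m * g m = 1 := by field_simp
            have e2 : (1 + e) / g c * g c = 1 + e := by field_simp
            rw [e1, e2]
            linarith
          · rw [Psi_swap, htau', hTT]
            have e1 : 1 / g m * g m = 1 := by field_simp
            have e2 : (1 : ℝ) / g c / p * g c = 1 + e := by
              rw [hpe]
              field_simp
            rw [e1, e2]
            exact hw
        · simp only [hcn, if_false, add_zero] at hw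
          exact ih1 c (lt_of_le_of_ne hc hcn) _ _ w (by positivity) (by positivity) hw
      · refine hv'.trans_le (le_of_eq ?_)
        have e3 : ∑ c ∈ range (n + 1), bw n p c * (Psi g c m (1 / g n / p) (1 / g m) +
            if c = n then p ^ m * (1 + e) * (T - tau) else 0) =
            PS g n m (1 / g n) (1 / g m) p + p ^ n * (p ^ m * (1 + e) * (T - tau)) := by
          unfold PS
          simp only [mul_add, Finset.sum_add_distrib, mul_ite, mul_zero]
          rw [Finset.sum_ite_eq' (range (n + 1)) n]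
          rw [if_pos (Finset.self_mem_range_succ n), bw_self]
        rw [e3]
        ring
    -- step E
    have hE1 : ∀ e : ℝ, 0 < e → tau - T ≤ m * e * (1 + e) := by
      intro e he
      have c1 := hC e he
      have c2 := Psi_thin_err (g := g) hE hZ hS hM hT hg hmo hn2 hm2 he
      rw [← htau] at c2
      set p := 1 / (1 + e) with hp
      have hp0 : 0 < p := by positivity
      have hp1 : p < 1 := by
        rw [hp, div_lt_one (by linarith)]
        linarith
      have hpe : p * (1 + e) = 1 := by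
        rw [hp]
        field_simp
      have c3 : p ^ (n + m) * (1 + e) = p ^ (n + m - 1) := by
        have : n + m = (n + m - 1) + 1 := by omega
        rw [this, pow_succ, mul_assoc, hpe, mul_one]
        simp
      rw [c3] at c1
      have c4 : p ^ (n + m - 1) ≤ p := by
        have := pow_le_pow_of_le_one hp0.le hp1.le (show 1 ≤ n + m - 1 by omega)
        rwa [pow_one] at this
      rcases le_or_gt tau T with h | h
      · have : (0 : ℝ) ≤ m * e * (1 + e) := by positivity
        linarith
      · have c5 : (tau - T) * (1 - p) ≤ m * e ^ 2 := by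
          nlinarith
        have c6 : (1 - p) * (1 + e) = e := by
          linear_combination -hpe
        have c7 : (tau - T) * e ≤ m * e ^ 2 * (1 + e) := by
          have := mul_le_mul_of_nonneg_right c5 (show (0 : ℝ) ≤ 1 + e by linarith)
          rw [mul_assoc, c6] at this
          exact this
        have c8 : (tau - T) * e ≤ (m * e * (1 + e)) * e := by
          refine c7.trans (le_of_eq ?_)
          ring
        exact le_of_mul_le_mul_right c8 he
    have hTtau : tau ≤ T := by
      by_contra hcon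
      push Not at hcon
      have hd : 0 < tau - T := by linarith
      have hmpos : (0 : ℝ) < m := by
        have : 0 < m := by omega
        exact_mod_cast this
      set d := tau - T with hddef
      have h10 := hE1 (min 1 (d / (4 * m))) (lt_min one_pos (by positivity))
      have h11 : min 1 (d / (4 * m)) ≤ 1 := min_le_left _ _
      have h12 : min 1 (d / (4 * m)) ≤ d / (4 * m) := min_le_right _ _
      have h13 : 0 < min 1 (d / (4 * m)) := lt_min one_pos (by positivity)
      have h14 : (m : ℝ) * min 1 (d / (4 * m)) ≤ d / 4 := by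
        have := mul_le_mul_of_nonneg_left h12 hmpos.le
        refine this.trans (le_of_eq ?_)
        field_simp
      have h15 : (m : ℝ) * min 1 (d / (4 * m)) * (1 + min 1 (d / (4 * m))) ≤ d / 4 * 2 := by
        apply mul_le_mul h14 (by linarith) (by linarith) (by linarith)
      linarith
    intro a b v ha hb hv
    rcases le_total (a * g n) (b * g m) with hab | hab
    · apply ahead hE hZ hM hT hg hmo h1 h2 h6 hn2 hm2 hne ih1 ha hb hab
      refine lt_of_lt_of_le hv (le_add_of_nonneg_right ?_)
      have : 0 ≤ TT g Gd n m - Psi g n m (1 / g n) (1 / g m) := by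
        rw [← hTdef, ← htau]
        linarith
      positivity
    · apply h3
      apply ahead hE hZ hM hT hg hmo h1 h2 h6 hm2 hn2 hne' ih2 hb ha hab
      rw [Psi_swap] at hv
      refine lt_of_lt_of_le hv (le_add_of_nonneg_right ?_)
      have : 0 ≤ TT g Gd m n - Psi g m n (1 / g m) (1 / g n) := by
        rw [hTT, htau']
        linarith
      positivity
  intro n m hn hm
  exact key (n + m) n m rfl hn hm

end main

end Pool.Agent.Y367.CG
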