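import Pool.Agent.Y367.CG.Bas

/-!
# Convergence of `W g k` (`S_CVG`)
-/

open MeasureTheory Finset Set Filter Topology

namespace Pool.Agent.Y367.CG

open Pool.Agent.Y171.CG

theorem intMax (hM : S_MEF) (hT : S_TAI) {g : ℕ → ℝ} (hg : LBd g) (c k : ℕ) :
    IntegrableOn (fun z => max (F g c z - F g k z) 0) (Ioi 0) := by
  refine int_of_le hM hT hg c k (((hM g c).sub (hM g k)).max measurable_const) 1 fun z => ?_
  have a1 := F_nonneg g c z
  have a2 := F_le_one g c z
  have b1 := F_nonneg g k z
  have b2 := F_le_one g k z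
  rw [abs_of_nonneg (le_max_right _ _), max_le_iff]
  constructor <;> linarith

theorem integral_max (hA : S_ANT) (hM : S_MEF) (hT : S_TAI) {g : ℕ → ℝ} (hg : GoodSeq g)
    {k : ℕ} (hk : 1 ≤ k) (c : ℕ) :
    ∫ z in Ioi (0 : ℝ), max (F g c z - F g k z) 0 ≤ max ((k : ℝ) - c) 0 := by
  rcases le_or_gt k c with h | h
  · have h1 : ∀ z, max (F g c z - F g k z) 0 = 0 := by
      intro z
      apply max_eq_right
      have := F_anti hA g h z
      linarith
    simp only [h1, integral_zero]
    exact le_max_right _ _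
  · have h1 : ∀ z, max (F g c z - F g k z) 0 = (1 - F g k z) - (1 - F g c z) := by
      intro z
      rw [max_eq_left]
      · ring
      · have := F_anti hA g h.le z
        linarith
    simp only [h1]
    rw [integral_sub (intB hM hT (lbd_good hg) k) (intB hM hT (lbd_good hg) c)]
    refine le_trans ?_ (le_max_left _ _)
    have h2 := J_good hg hk
    have h3 := J_good_ge hg c
    unfold J at h2 h3
    linarith

theorem W_almost_mono (hTh : S_THL) (hA : S_ANT) (hB : S_BIN) (hM : S_MEF) (hT : S_TAI)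
    {g : ℕ → ℝ} (hg : GoodSeq g) {k n : ℕ} (hk : 1 ≤ k) (hkn : k ≤ n) :
    W g k - 1 / √(k : ℝ) ≤ W g n := by
  have hk0 : (0 : ℝ) < k := by exact_mod_cast hk
  have hn0 : (0 : ℝ) < n := by exact_mod_cast (lt_of_lt_of_le hk hkn)
  have hkn' : (k : ℝ) ≤ n := by exact_mod_cast hkn
  have hl := lbd_good hg
  set p : ℝ := (k : ℝ) / n with hp
  have hp0 : 0 < p := by positivity
  have hp1 : p ≤ 1 := by
    rw [hp, div_le_one hn0]
    exact hkn'
  have hnp : (n : ℝ) * p = k := by
    rw [hp]
    field_simp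
  set E : ℝ → ℝ := fun y => ∑ c ∈ range (n + 1), bw n p c * max (F g c y - F g k y) 0 with hE
  have hEint : IntegrableOn E (Ioi 0) := by
    apply integrable_finsetSum
    intro c _
    exact (intMax hM hT hl c k).const_mul _
  have hE0 : ∀ y, 0 ≤ E y := by
    intro y
    apply Finset.sum_nonneg
    intro c _
    exact mul_nonneg (bw_nonneg hp0.le hp1 c) (le_max_right _ _)
  have hEI : ∫ y in Ioi (0 : ℝ), E y ≤ √(k : ℝ) := by
    rw [hE, integral_finsetSum _ (fun c _ => (intMax hM hT hl c k).const_mul _)]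
    refine le_trans (Finset.sum_le_sum (g := fun c : ℕ => bw n p c * max ((n : ℝ) * p - c) 0)
      fun c _ => ?_) ?_
    · rw [integral_const_mul, hnp]
      exact mul_le_mul_of_nonneg_left (integral_max hA hM hT hg hk c) (bw_nonneg hp0.le hp1 c)
    · have := hB n p hp0.le hp1
      rwa [hnp] at this ⊢
  have hpt : ∀ z, 0 < z → 1 - F g k (p * z) * F g k (p * z) - 2 * E (p * z) ≤
      1 - F g n z * F g n z := by
    intro z hz
    have h1 := hTh g n p z hp0 hp1 hz
    set S := ∑ c ∈ range (n + 1), bw n p c * F g c (p * z) with hS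
    have h2 : S ≤ F g k (p * z) + E (p * z) := by
      have : F g k (p * z) = ∑ c ∈ range (n + 1), bw n p c * F g k (p * z) := by
        rw [← Finset.sum_mul, bw_sum, one_mul]
      rw [this, hE, hS, ← Finset.sum_add_distrib]
      apply Finset.sum_le_sum
      intro c _
      rw [← mul_add]
      apply mul_le_mul_of_nonneg_left _ (bw_nonneg hp0.le hp1 c)
      have := le_max_left (F g c (p * z) - F g k (p * z)) 0
      linarith
    have h3 : S ≤ 1 := by
      rw [hS, ← bw_sum n p]
      apply Finset.sum_le_sum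
      intro c _
      have := F_le_one g c (p * z)
      have := bw_nonneg (n := n) hp0.le hp1 c
      nlinarith
    have h4 := F_nonneg g n z
    have h5 := F_nonneg g k (p * z)
    have h6 := F_le_one g k (p * z)
    have h7 := hE0 (p * z)
    have h8 : 0 ≤ S := h4.trans h1
    have h9 : F g n z * F g n z ≤ S * S := mul_self_le_mul_self h4 h1
    rcases le_total S (F g k (p * z)) with h10 | h10
    · have : S * S ≤ F g k (p * z) * F g k (p * z) := mul_self_le_mul_self h8 h10
      linarith
    · have h11 : (S - F g k (p * z)) * (S + F g k (p * z)) ≤ E (p * z) * 2 := by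
        apply mul_le_mul (by linarith) (by linarith) (by linarith) h7
      nlinarith
  have hint1 : IntegrableOn (fun y => 1 - F g k y * F g k y - 2 * E y) (Ioi 0) :=
    (intFF hM hT hl k k).sub (hEint.const_mul 2)
  have h12 : p⁻¹ * (Psi g k k 1 1 - 2 * √(k : ℝ)) ≤ Psi g n n 1 1 := by
    have h13 : ∫ z in Ioi (0 : ℝ), (1 - F g k (p * z) * F g k (p * z) - 2 * E (p * z)) ≤
        Psi g n n 1 1 := by
      rw [Psi_one]
      refine setIntegral_mono_on (int_comp _ hint1 hp0) (intFF hM hT hl n n)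
        measurableSet_Ioi fun z hz => ?_
      exact hpt z hz
    rw [integral_comp (fun y => 1 - F g k y * F g k y - 2 * E y) hp0] at h13
    refine le_trans (mul_le_mul_of_nonneg_left ?_ (inv_nonneg.mpr hp0.le)) h13
    rw [integral_sub (intFF hM hT hl k k) (hEint.const_mul 2), integral_const_mul, ← Psi_one]
    linarith
  unfold W
  have h14 := mul_le_mul_of_nonneg_left h12 (show (0 : ℝ) ≤ 1 / (2 * n) by positivity)
  refine le_trans (le_of_eq ?_) h14
  rw [hp]
  have hs : √(k : ℝ) * √(k : ℝ) = k := Real.mul_self_sqrt hk0.le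
  have hs0 : 0 < √(k : ℝ) := Real.sqrt_pos.mpr hk0
  have h15 : 1 / √(k : ℝ) = √(k : ℝ) / k := by
    rw [div_eq_div_iff hs0.ne' hk0.ne', hs]
    ring
  rw [h15]
  field_simp

/-- `S_CVG`. -/
theorem cvg (hTh : S_THL) (hA : S_ANT) (hB : S_BIN) (hM : S_MEF) (hT : S_TAI) : S_CVG := by
  intro g hg
  set s : Set ℝ := {x | ∃ k : ℕ, 1 ≤ k ∧ x = W g k - 1 / √(k : ℝ)} with hs
  have hbd : BddAbove s := by
    refine ⟨1, ?_⟩
    rintro x ⟨k, hk, rfl⟩
    have := W_le_one hM hT hg k
    have : 0 ≤ 1 / √(k : ℝ) := by positivity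
    linarith
  have hne : s.Nonempty := ⟨_, 1, le_rfl, rfl⟩
  refine ⟨sSup s, ?_⟩
  rw [tendsto_order]
  constructor
  · intro a ha
    obtain ⟨x, ⟨k, hk, rfl⟩, hx⟩ := exists_lt_of_lt_csSup hne ha
    filter_upwards [eventually_ge_atTop k] with n hn
    exact hx.trans_le (W_almost_mono hTh hA hB hM hT hg hk hn)
  · intro a ha
    have h1 : Tendsto (fun n : ℕ => 1 / √(n : ℝ)) atTop (𝓝 0) := by
      simp only [one_div]
      exact tendsto_inv_atTop_zero.comp (Real.tendsto_sqrt_atTop.comp tendsto_natCast_atTop_atTop)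
    have h2 : ∀ᶠ n : ℕ in atTop, 1 / √(n : ℝ) < a - sSup s :=
      (tendsto_order.mp h1).2 _ (by linarith)
    filter_upwards [eventually_ge_atTop 1, h2] with n hn hn2
    have h3 : W g n - 1 / √(n : ℝ) ≤ sSup s := le_csSup hbd ⟨n, hn, rfl⟩
    linarith

end Pool.Agent.Y367.CG
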